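import Pool.Agent.Y726.ZI.Core
import Pool.Agent.W352.ChAbs.Main
import Pool.Agent.W401.Cheb.Main

/-!
Project Y142-ZI, task CHEB: Chebotarev's theorem for the absolute Galois group of `ℚ`.
-/

set_option autoImplicit false

namespace Pool.Agent.Y726.ZI

open Pool.Agent.Y142.ZI Pool.Agent.W401.Cheb

theorem t1 : S_CHEB :=
  cheb_of (Pool.Agent.W352.ChAbs.main chebotarev fun L => torsor L)

theorem pos : S_POS := t2 t1

end Pool.Agent.Y726.ZI
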