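import Pool.Agent.Y142.ZI.Stm
import Pool.Agent.W571.FM.Frob
import Pool.Agent.W569.FM.Span

/-!
Project Y142-ZI, tasks CHEB and POS: Chebotarev's theorem for the absolute Galois group of `ℚ`, in
terms of prime numbers.
-/

set_option autoImplicit false

namespace Pool.Agent.Y726.ZI

open NumberField Filter Topology IsDedekindDomain
open Pool.Agent.Y142.ZI
open Pool.Agent.W401.Cheb (ChebK IsFrob dens)
open Pool.Agent.Y142.ZO (GK)

/-- the place of a prime number -/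
noncomputable def pv (l : ℕ) (hl : l.Prime) : HeightOneSpectrum (𝓞 ℚ) :=
  ⟨W571.FM.pl l, W571.FM.pl_prime hl, W571.FM.pl_ne hl⟩

theorem absNorm_pv (l : ℕ) (hl : l.Prime) : Ideal.absNorm (pv l hl).asIdeal = l :=
  W571.FM.absNorm_pl l

theorem frobAt_iff {l : ℕ} (hl : l.Prime) (σ : GK ℚ) : FrobAt l σ ↔ IsFrob (pv l hl) σ := by
  constructor
  · rintro ⟨Q, hQ, hlQ, h⟩
    refine ⟨Q, hQ, W571.FM.cm_eq hl hQ hlQ, fun x => ?_⟩
    rw [absNorm_pv]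
    exact h x
  · rintro ⟨Q, hQ, hQv, h⟩
    refine ⟨Q, hQ, ?_, fun x => ?_⟩
    · apply W571.FM.natCast_mem_cm.1
      unfold W571.FM.cm
      rw [hQv]
      exact Ideal.mem_span_singleton_self _
    · have := h x
      rwa [absNorm_pv] at this

theorem exists_pv (v : HeightOneSpectrum (𝓞 ℚ)) : ∃ (l : ℕ) (hl : l.Prime), pv l hl = v := by
  obtain ⟨Q, σ, hQ, hQv, -⟩ := W571.FM.frob_cm v
  obtain ⟨q, hq, hqQ⟩ := W569.FM.exists_char Q hQ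
  refine ⟨q, hq, ?_⟩
  apply HeightOneSpectrum.ext
  rw [← hQv]
  exact (W571.FM.cm_eq hq hQ hqQ).symm

theorem card_eq (C : Set (GK ℚ)) (n : ℕ) :
    Nat.card {ℓ : ℕ // ℓ ≤ n ∧ ℓ.Prime ∧ ∃ σ ∈ C, FrobAt ℓ σ} =
      Nat.card {v : HeightOneSpectrum (𝓞 ℚ) // Ideal.absNorm v.asIdeal ≤ n ∧
        ∃ σ ∈ C, IsFrob v σ} := by
  apply Nat.card_eq_of_bijective (fun ℓ : {ℓ : ℕ // ℓ ≤ n ∧ ℓ.Prime ∧ ∃ σ ∈ C, FrobAt ℓ σ} =>
    (⟨pv ℓ.1 ℓ.2.2.1, by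
      obtain ⟨h1, h2, σ, hσ, h3⟩ := ℓ.2
      exact ⟨(absNorm_pv _ _).le.trans h1, σ, hσ, (frobAt_iff h2 σ).1 h3⟩⟩ :
      {v : HeightOneSpectrum (𝓞 ℚ) // Ideal.absNorm v.asIdeal ≤ n ∧ ∃ σ ∈ C, IsFrob v σ}))
  constructor
  · intro a b hab
    apply Subtype.ext
    have h1 := congrArg (fun v => Ideal.absNorm v.1.asIdeal) hab
    simpa only [absNorm_pv] using h1
  · rintro ⟨v, hv, σ, hσ, h⟩
    obtain ⟨l, hl, rfl⟩ := exists_pv v
    rw [absNorm_pv] at hv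
    exact ⟨⟨l, hv, hl, σ, hσ, (frobAt_iff hl σ).2 h⟩, rfl⟩

theorem cheb_of (h : ChebK) : S_CHEB := by
  intro U hU1 hU C hC hCU
  have := hU1
  refine (h ℚ U hU C hC hCU).congr fun n => ?_
  unfold dens
  rw [card_eq]

theorem t2 (h : S_CHEB) : S_POS := by
  intro U hU1 hU C hne hC hCU A hA b
  by_contra hcon
  push Not at hcon
  have h1 := h U hU1 hU C hC hCU
  have hfin : Finite (GK ℚ ⧸ U) := Subgroup.quotient_finite_of_isOpen U hU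
  have h5 : 0 < ((QuotientGroup.mk : GK ℚ → GK ℚ ⧸ U) '' C).ncard := by
    rw [Set.ncard_pos (Set.toFinite _)]
    exact hne.image _
  have h6 : 0 < Nat.card (GK ℚ ⧸ U) := Nat.card_pos
  have h7 : (0 : ℝ) < (((QuotientGroup.mk : GK ℚ → GK ℚ ⧸ U) '' C).ncard : ℝ) /
      (Nat.card (GK ℚ ⧸ U) : ℝ) := by positivity
  refine absurd ?_ (not_le.2 h7)
  have h3 : Tendsto (fun n : ℕ => (b + 1 : ℝ) / (Nat.primeCounting n : ℝ)) atTop (𝓝 0) := by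
    apply Tendsto.const_div_atTop
    exact tendsto_natCast_atTop_atTop.comp Nat.tendsto_primeCounting
  have h4 := h3.add hA
  rw [add_zero] at h4
  refine le_of_tendsto_of_tendsto' h1 h4 fun n => ?_
  rw [← add_div]
  apply div_le_div_of_nonneg_right _ (Nat.cast_nonneg _)
  have h8 : Nat.card {ℓ : ℕ // ℓ ≤ n ∧ ℓ.Prime ∧ ∃ σ ∈ C, FrobAt ℓ σ} ≤
      Nat.card (Fin (b + 1) ⊕ {ℓ : ℕ // ℓ ≤ n ∧ ℓ ∈ A}) := by
    have hf : Finite {ℓ : ℕ // ℓ ≤ n ∧ ℓ ∈ A} :=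
      Set.Finite.subset (Set.finite_Iic n) fun x hx => hx.1
    classical
    apply Nat.card_le_card_of_injective (fun ℓ : {ℓ : ℕ // ℓ ≤ n ∧ ℓ.Prime ∧ ∃ σ ∈ C, FrobAt ℓ σ} =>
      if h : ℓ.1 ≤ b then (Sum.inl ⟨ℓ.1, by omega⟩ : Fin (b + 1) ⊕ {ℓ : ℕ // ℓ ≤ n ∧ ℓ ∈ A})
      else Sum.inr ⟨ℓ.1, ℓ.2.1, by
        by_contra hA'
        obtain ⟨σ, hσ, hF⟩ := ℓ.2.2.2
        exact hcon ℓ.1 (by omega) ℓ.2.2.1 hA' σ hσ hF⟩)
    intro x y hxy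
    apply Subtype.ext
    by_cases hx : x.1 ≤ b
    · by_cases hy : y.1 ≤ b
      · simp only [hx, hy, dif_pos, Sum.inl.injEq, Fin.mk.injEq] at hxy
        exact hxy
      · simp only [hx, hy, dif_pos, dif_neg, not_false_eq_true, reduceCtorEq] at hxy
    · by_cases hy : y.1 ≤ b
      · simp only [hx, hy, dif_pos, dif_neg, not_false_eq_true, reduceCtorEq] at hxy
      · simp only [hx, hy, dif_neg, not_false_eq_true, Sum.inr.injEq, Subtype.mk.injEq] at hxy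
        exact hxy
  have hf : Finite {ℓ : ℕ // ℓ ≤ n ∧ ℓ ∈ A} :=
    Set.Finite.subset (Set.finite_Iic n) fun x hx => hx.1
  rw [Nat.card_sum, Nat.card_fin] at h8
  exact_mod_cast h8

end Pool.Agent.Y726.ZI
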